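import Pool.Agent.H84.NT.THNd

/-!
# Thin near ties: the numerical conditions
-/

open MeasureTheory ProbabilityTheory
open scoped ENNReal

namespace Pool.Agent.H76.NT

open Pool.Agent.H99.NS Pool.Agent.H22.LPP Pool.Agent.H95.INS Pool.Agent.H76.ND Pool.Agent.H95.ND
open Pool.Agent.H84.NT hiding lv two_lv
open Pool.Agent.H84.NT5 Pool.Agent.H84.NT5.TH

theorem pow_ev (r C : ℝ) (hr : 1 < r) : ∃ n0 : ℕ, ∀ n : ℕ, n0 ≤ n → C ≤ r ^ n := by
  have h := (tendsto_pow_atTop_atTop_of_one_lt hr).eventually_ge_atTop C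
  obtain ⟨n0, h0⟩ := Filter.eventually_atTop.1 h
  exact ⟨n0, h0⟩

theorem pf_NUM : T_NUM := by
  intro hDAC q hq0 hq1 K0 Cκ Cd Cdd A Ks B H Y ε p₀ k₀ hK0 hCκ hCd hCdd hCd2 hCB hA hH hk₀ hLG
  obtain ⟨C2, hC2, hDAC⟩ := hDAC q hq0 hq1
  have hsg := sg_pos hq0 hq1
  have hCκ1 : 1 ≤ Cκ := by linarith
  have hK4 : 1 ≤ K0 ^ 4 := one_le_pow₀ hK0
  obtain ⟨C1, hC1d⟩ : ∃ C1 : ℝ, C1 = Cκ * K0 ^ 4 := ⟨_, rfl⟩
  have hC11 : 1 ≤ C1 := by rw [hC1d]; exact one_le_mul_of_one_le_of_one_le hCκ1 hK4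
  have hC1sg : sg q ≤ C1 := by
    rw [hC1d]
    nlinarith only [hCκ, hK4, hq0, hq1, hsg]
  obtain ⟨C3, hC3d⟩ : ∃ C3 : ℝ, C3 = C2 * C1 := ⟨_, rfl⟩
  have hC31 : 1 ≤ C3 := by rw [hC3d]; exact one_le_mul_of_one_le_of_one_le hC2 hC11
  obtain ⟨u1, hu1⟩ := pow_ev (160 / 11) (40 * C3) (by norm_num)
  obtain ⟨u2, hu2⟩ := pow_ev 16 (6400 * A) (by norm_num)
  obtain ⟨u3, hu3⟩ := pow_ev 4 (Y / sg q) (by norm_num)
  obtain ⟨u4, hu4⟩ := pow_ev 4 H (by norm_num)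
  obtain ⟨n0, hn0⟩ := pow_ev 2 (1280 * C3 + sg q * C3 ^ 2) (by norm_num)
  refine ⟨1 / 3000, 0, 3000 * (n0 + 10) + 36 * (k₀ + 40), u1 + u2 + u3 + u4 + 1, by norm_num, ?_⟩
  intro K b u hK1 hK35 hab huK hu0
  have huK' : 3000 * u ≤ K := by
    have h : (3000 : ℝ) * u ≤ K := by linarith
    exact_mod_cast h
  have hb36 : K ≤ 36 * b := by omega
  have hkb : k₀ ≤ b := by omega
  -- the constant κ
  obtain ⟨κ, hκd⟩ : ∃ κ : ℝ, κ = kp Cκ K0 (2 * u) := ⟨_, rfl⟩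
  have hκe : κ = C1 * ((101 / 100) ^ 8) ^ u := by
    rw [hκd, kp, hC1d, ← pow_mul]
    congr 2
    ring
  have hθ1 : 1 ≤ (((101 : ℝ) / 100) ^ 8) ^ u := one_le_pow₀ (one_le_pow₀ (by norm_num))
  have hθ2 : (((101 : ℝ) / 100) ^ 8) ^ u ≤ (11 / 10) ^ u :=
    pow_le_pow_left₀ (by positivity) (by norm_num) u
  have hκC : C1 ≤ κ := by rw [hκe]; nlinarith only [hθ1, hq0, hq1, hC11]
  have hκ1 : 1 ≤ κ := hC11.trans hκC
  have hκs : sg q ≤ κ := hC1sg.trans hκC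
  have hκu : κ ≤ C1 * (11 / 10) ^ u := by
    rw [hκe]
    exact mul_le_mul_of_nonneg_left hθ2 (by linarith)
  obtain ⟨Aa, hAe, hAκ, hAC, hAok⟩ := hDAC κ hκ1 hκs
  have hAu : (Aa : ℝ) ≤ C3 * (11 / 10) ^ u := by
    calc (Aa : ℝ) ≤ C2 * κ := hAC
      _ ≤ C2 * (C1 * (11 / 10) ^ u) := mul_le_mul_of_nonneg_left hκu (by linarith)
      _ = _ := by rw [hC3d]; ring
  have hA4 : (4 : ℝ) ≤ Aa := by linarith
  have hA4' : (4 : ℤ) ≤ Aa := by exact_mod_cast hA4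
  -- powers
  have p16 : (1 : ℝ) ≤ 16 ^ u := one_le_pow₀ (by norm_num)
  have p1 : (1 : ℝ) ≤ (11 / 10) ^ u := one_le_pow₀ (by norm_num)
  have e1 : ((11 : ℝ) / 10) ^ u * (160 / 11) ^ u = 16 ^ u := by
    rw [← mul_pow]; norm_num
  -- u large
  have U1 : 40 * (C3 * (11 / 10) ^ u) ≤ 16 ^ u := by
    have := mul_le_mul_of_nonneg_left (hu1 u (by omega)) (by positivity : (0 : ℝ) ≤ (11 / 10) ^ u)
    rw [e1] at this
    linarith
  have U1A : 40 * (Aa : ℝ) ≤ 16 ^ u := by linarith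
  have U1κ : 80 * κ ≤ 16 ^ u := by linarith
  have U2 : (6400 : ℝ) * A ≤ 16 ^ u := hu2 u (by omega)
  have U3 : Y ≤ sg q * 4 ^ u := by
    have := hu3 u (by omega)
    rw [div_le_iff₀ hsg] at this
    linarith
  have U4 : H ≤ 4 ^ u := hu4 u (by omega)
  -- K large
  have hMn := hn0 n0 le_rfl
  have hsC : 0 ≤ sg q * C3 ^ 2 := by positivity
  have p2u : ((11 : ℝ) / 10) ^ u ≤ 2 ^ u := pow_le_pow_left₀ (by norm_num) (by norm_num) u
  have V1 : 1280 * C3 * (11 / 10) ^ u * 16 ^ u ≤ 2 ^ (b / 4) := by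
    have f1 : ((11 : ℝ) / 10) ^ u * 16 ^ u ≤ 2 ^ (5 * u) := by
      rw [← mul_pow, pow_mul]
      exact pow_le_pow_left₀ (by norm_num) (by norm_num) u
    calc 1280 * C3 * (11 / 10) ^ u * 16 ^ u = (1280 * C3) * ((11 / 10) ^ u * 16 ^ u) := by ring
      _ ≤ 2 ^ n0 * 2 ^ (5 * u) := by
        refine mul_le_mul (by linarith) f1 (by positivity) (by positivity)
      _ = 2 ^ (n0 + 5 * u) := by rw [pow_add]
      _ ≤ 2 ^ (b / 4) := pow_le_pow_right₀ (by norm_num) (by omega)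
  have V2 : 60 * (Aa : ℝ) + 32 ≤ ((Xf K : ℤ) : ℝ) := by
    have hX : ((Xf K : ℤ) : ℝ) = 2 ^ (2 * (K / 400)) := by
      unfold Xf
      push_cast
      rw [pow_mul]
      norm_num
    rw [hX]
    calc 60 * (Aa : ℝ) + 32 ≤ (1280 * C3) * 2 ^ u := by
          have f1 : (Aa : ℝ) ≤ C3 * 2 ^ u :=
            hAu.trans (mul_le_mul_of_nonneg_left p2u (by linarith))
          have f2 : (1 : ℝ) ≤ C3 * 2 ^ u :=
            one_le_mul_of_one_le_of_one_le hC31 (one_le_pow₀ (by norm_num))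
          nlinarith only [hq0, hq1, hC11, hκC, hAκ, f1]
      _ ≤ 2 ^ n0 * 2 ^ u := by
        refine mul_le_mul_of_nonneg_right (by linarith) (by positivity)
      _ = 2 ^ (n0 + u) := by rw [pow_add]
      _ ≤ 2 ^ (2 * (K / 400)) := pow_le_pow_right₀ (by norm_num) (by omega)
  have V3 : 14 * (sg q * (Aa : ℝ) ^ 2 / 4) / 1000 ≤ 4 ^ (K / 2000) := by
    have hX : (4 : ℝ) ^ (K / 2000) = 2 ^ (2 * (K / 2000)) := by
      rw [pow_mul]
      norm_num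
    rw [hX]
    have f1 : (Aa : ℝ) ^ 2 ≤ C3 ^ 2 * 2 ^ u := by
      calc (Aa : ℝ) ^ 2 ≤ (C3 * (11 / 10) ^ u) ^ 2 := pow_le_pow_left₀ (by linarith) hAu 2
        _ = C3 ^ 2 * ((11 / 10) ^ 2) ^ u := by rw [mul_pow, ← pow_mul, ← pow_mul, mul_comm u 2]
        _ ≤ C3 ^ 2 * 2 ^ u := by
          refine mul_le_mul_of_nonneg_left ?_ (by positivity)
          exact pow_le_pow_left₀ (by norm_num) (by norm_num) u
    calc 14 * (sg q * (Aa : ℝ) ^ 2 / 4) / 1000 ≤ sg q * (Aa : ℝ) ^ 2 := by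
          have : 0 ≤ sg q * (Aa : ℝ) ^ 2 := by positivity
          linarith
      _ ≤ sg q * (C3 ^ 2 * 2 ^ u) := mul_le_mul_of_nonneg_left f1 hsg.le
      _ = (sg q * C3 ^ 2) * 2 ^ u := by ring
      _ ≤ 2 ^ n0 * 2 ^ u := by
        refine mul_le_mul_of_nonneg_right (by nlinarith only [hq0, hq1, hC31, hMn]) (by positivity)
      _ = 2 ^ (n0 + u) := by rw [pow_add]
      _ ≤ 2 ^ (2 * (K / 2000)) := pow_le_pow_right₀ (by norm_num) (by omega)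
  have V2' : 60 * Aa + 32 ≤ Xf K := by exact_mod_cast V2
  have hXf64 : 64 ≤ Xf K := by linarith only [hA4', V2']
  have hXf4 : 4 * Xf K ≤ 4 ^ (b + u + 1) := by
    unfold Xf
    calc (4 : ℤ) * 4 ^ (K / 400) = 4 ^ (K / 400 + 1) := by rw [pow_succ]; ring
      _ ≤ 4 ^ (b + u + 1) := pow_le_pow_right₀ (by norm_num) (by omega)
  -- splitting of powers
  have s16 : (16 : ℝ) ^ (b + u + 1) = 16 ^ b * (16 ^ u * 16) := by
    rw [pow_succ, pow_add]; ring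
  have s16' : (16 : ℝ) ^ (b + 2 * u + 1) = 16 ^ b * (16 ^ u * 16) * 16 ^ u := by
    rw [pow_succ, pow_add, two_mul, pow_add]; ring
  have s4 : (4 : ℝ) ^ (b + u + 1) = 4 ^ b * (4 ^ u * 4) := by
    rw [pow_succ, pow_add]; ring
  have P : (0 : ℝ) < 16 ^ b := by positivity
  have Q4 : (0 : ℝ) < 4 ^ b := by positivity
  have p4 : (1 : ℝ) ≤ 4 ^ u := one_le_pow₀ (by norm_num)
  have T16 : (0 : ℤ) < 16 ^ (b + u + 1) := by positivity
  have T64 : (64 : ℤ) ^ (b + u + 1) = 4 ^ (b + u + 1) * 16 ^ (b + u + 1) := by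
    rw [← mul_pow]; norm_num
  -- the block scale
  have hb := hLG b (20 * Aa * 16 ^ (b + u + 1)) hkb ?_ ?_
  rotate_left
  · have g1 : (16 : ℝ) * A * 16 ^ b ≤ 20 * Aa * 16 ^ (b + u + 1) := by
      rw [s16]
      have g2 : 16 * (A : ℝ) ≤ 20 * Aa * (16 ^ u * 16) := by
        have : (A : ℝ) ≤ 16 ^ u := by
          have : (0 : ℝ) ≤ A := by
            have : (0 : ℤ) ≤ A := by omega
            exact_mod_cast this
          linarith only [hq0, hq1, hC11, hκC, hAκ, hAu, U1, U2]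
        nlinarith only [hCκ, hK4, hC1d, hκC, hAκ, hAu, U1, U2, hq0, hq1, hsg, hC11, p16]
      calc 16 * (A : ℝ) * 16 ^ b ≤ (20 * Aa * (16 ^ u * 16)) * 16 ^ b :=
            mul_le_mul_of_nonneg_right g2 P.le
        _ = _ := by ring
    exact_mod_cast g1
  · have g1 : (2 : ℝ) ^ (b / 4) ≤ 2 ^ ((b : ℝ) / 4) := by
      rw [← Real.rpow_natCast 2 (b / 4)]
      refine Real.rpow_le_rpow_of_exponent_le (by norm_num) ?_
      have := @Nat.cast_div_le ℝ _ _ _ b 4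
      push_cast at this
      exact this
    push_cast
    rw [s16]
    have g2 : 4 * (20 * (Aa : ℝ) * (16 ^ u * 16)) ≤ 2 ^ (b / 4) := by
      refine le_trans ?_ V1
      have := mul_le_mul_of_nonneg_right hAu (by positivity : (0 : ℝ) ≤ 1280 * 16 ^ u)
      linarith only [this]
    calc 4 * (20 * (Aa : ℝ) * (16 ^ b * (16 ^ u * 16)))
        = 16 ^ b * (4 * (20 * (Aa : ℝ) * (16 ^ u * 16))) := by ring
      _ ≤ 16 ^ b * 2 ^ ((b : ℝ) / 4) :=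
        mul_le_mul_of_nonneg_left (g2.trans g1) P.le
  obtain ⟨hb1, hb2, hb3, hb4, hb5⟩ := hb
  have hokA := hAok (b + u + 1) ((Xf K - 16) * 16 ^ (b + u + 1)) (by omega) (by nlinarith only [hA4', V2', T16]) (by
    rw [T64]
    nlinarith only [hA4', V2', hXf4, T16])
  rw [← hκd]
  refine ⟨Aa, ?_, hb2, hb3, hb4, hb5, ?_, hXf64, hXf4, by omega⟩
  · refine ⟨hq0, hq1, hb1, hokA, by omega, by omega, by omega, by omega, hκ1, hκs, hAκ,
      by nlinarith only [V2', T16], ?_, ?_, hCd, hCdd, hCd2, hCB, hH, ?_, ?_, ?_, ?_, V3, by nlinarith only [hA4', V2', T16]⟩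
    · have g1 : (6400 : ℝ) * A * 16 ^ b ≤ 16 ^ (b + u + 1) := by
        rw [s16]
        nlinarith only [hq0, P, hq1, hC11, hκC, hAκ, hAu, U1, U2]
      exact_mod_cast g1
    · rw [s4]
      have g1 : 4 * Y ≤ sg q * (Aa : ℝ) ^ 2 / 4 * (4 ^ u * 4) := by
        have g2 : (16 : ℝ) ≤ (Aa : ℝ) ^ 2 := by nlinarith only [hCκ, hK4, hC1d, hκC, hAκ, hq0, hsg, hq1, hC11]
        have g3 : sg q * 4 ^ u * 16 ≤ sg q * 4 ^ u * (Aa : ℝ) ^ 2 :=
          mul_le_mul_of_nonneg_left g2 (by positivity)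
        have g4 : 0 < sg q * 4 ^ u := by positivity
        linarith only [U3, g3, g4]
      calc 4 * Y * 4 ^ b ≤ (sg q * (Aa : ℝ) ^ 2 / 4 * (4 ^ u * 4)) * 4 ^ b :=
            mul_le_mul_of_nonneg_right g1 Q4.le
        _ = _ := by ring
    · rw [s4]
      have g1 : H / 1000 ≤ 4 ^ u * 4 := by linarith only [hq0, hq1, hH, U4]
      calc H * 4 ^ b / 1000 = H / 1000 * 4 ^ b := by ring
        _ ≤ (4 ^ u * 4) * 4 ^ b := mul_le_mul_of_nonneg_right g1 Q4.le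
        _ = _ := by ring
    · rw [s16', s16]
      have g1 : κ * (16 ^ u * 16) + 1 ≤ 6 * ((16 ^ u * 16) * 16 ^ u) := by
        have g2 : κ * (16 ^ u * 16) ≤ 16 ^ u * (16 ^ u * 16) :=
          mul_le_mul_of_nonneg_right (by linarith only [hq0, hq1, hC11, hκC, hAκ, hAu, U1]) (by positivity)
        nlinarith only [hCκ, hK4, hC1d, hκC, hAκ, hAu, U1, g2, hq0, hq1, hsg, hC11, p16]
      nlinarith only [hq0, hq1, P, g1]
    · rw [s16', s16]
      have g2 : κ * (16 ^ b * (16 ^ u * 16)) ≤ 16 ^ u * (16 ^ b * (16 ^ u * 16)) :=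
        mul_le_mul_of_nonneg_right (by linarith only [hq0, hq1, hC11, hκC, hAκ, hAu, U1]) (by positivity)
      have g3 : 0 < 16 ^ u * (16 ^ b * ((16 : ℝ) ^ u * 16)) := by positivity
      linarith only [g2, g3]
    · have e2 : (64 : ℝ) ^ u = 4 ^ u * 16 ^ u := by rw [← mul_pow]; norm_num
      rw [e2, pow_succ]
      have g2 : κ * 4 ≤ 16 ^ u := by linarith only [hq0, hq1, hC11, hκC, hAκ, hAu, U1]
      have := mul_le_mul_of_nonneg_left g2 (by positivity : (0 : ℝ) ≤ 4 ^ u)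
      linarith only [this]
  · have g1 : (4 : ℝ) * 16 ^ (b + 2 * u + 1) + 16 ^ b + 2 * (20 * Aa * 16 ^ (b + u + 1)) <
        200 * 16 ^ (b + 2 * u + 1) := by
      rw [s16', s16]
      have g2 : 40 * (Aa : ℝ) * (16 ^ b * (16 ^ u * 16)) ≤ 16 ^ u * (16 ^ b * (16 ^ u * 16)) :=
        mul_le_mul_of_nonneg_right (by linarith only [hAu, U1]) (by positivity)
      have g3 : (16 : ℝ) ^ b * 1 ≤ 16 ^ b * ((16 ^ u * 16) * 16 ^ u) :=
        mul_le_mul_of_nonneg_left (by nlinarith only [hCκ, hK4, hC1d, hκC, hAκ, hAu, U1, hq0, hq1, hsg, p16]) P.le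
      have g4 : 0 < 16 ^ u * (16 ^ b * ((16 : ℝ) ^ u * 16)) := by positivity
      nlinarith only [P, g2, g3]
    exact_mod_cast g1

end Pool.Agent.H76.NT
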